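import Pool.Agent.Lib_MP_5180ba.Avg

/-!
# MP_5180ba - real roots of sums of boundedly many squares: the average over the coefficients

For arbitrary real polynomials `f_1, …, f_s`, not all zero, the number of distinct real roots of
`∑ c_i f_i ^ 2`, averaged over `c` in the cube `[-1,1]^s`, is at most `28 s |⋃ supp f_i|`.
-/

namespace Pool.Agent.Results.MP_5180ba_lc.AverageCase

open Polynomial MeasureTheory
open scoped ENNReal

/-- For all real polynomials `f_1, …, f_s`, not all zero, the number of distinct real roots of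
`∑ c_i f_i ^ 2` (`⊤` if infinite) is a measurable function of `c`, and its integral over the cube
`[-1,1]^s` (whose volume is `2 ^ s`) is at most `2 ^ s * (28 s |⋃ supp f_i|)`. -/
theorem result (s : ℕ) (f : Fin s → ℝ[X]) (hf : ∃ i, f i ≠ 0) :
    (Measurable fun c : Fin s → ℝ =>
      (({t : ℝ | (∑ i, C (c i) * f i ^ 2).eval t = 0}.encard : ℕ∞) : ℝ≥0∞)) ∧
    ∫⁻ c in Set.Icc (-1 : Fin s → ℝ) 1,
        (({t : ℝ | (∑ i, C (c i) * f i ^ 2).eval t = 0}.encard : ℕ∞) : ℝ≥0∞) ≤
      2 ^ s * (28 * s * (Finset.univ.biUnion fun i => (f i).support).card) :=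
  ⟨MP5180ba.measurable_encard f, MP5180ba.main f hf⟩

end Pool.Agent.Results.MP_5180ba_lc.AverageCase
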