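import Pool.Agent.Lib_MP_5180ba_sec.Prd

/-!
# MP_5180ba - real roots of sums of boundedly many squares: supports in few progressions

For all `s` and `c` there is a constant `K` such that the bound `K T` holds for the number of
distinct real roots of every non-zero `∑ a_i f_i ^ 2` (`s` squares) for which the support of each
`f_i` is covered by `c` arithmetic progressions, with arbitrary first terms and steps, `T` being the
sum of the lengths of the `s c` progressions.  More generally the bound is `K (n + 1)` if every
`f_i` is a sum of `c` terms `x ^ σ * ∏ p_l (x ^ d_l)`, each with `c` factors, `deg p_l ≤ n`, with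
arbitrary `σ` and `d_l ≥ 1`.

The proof counts the zeros of the Wronskian-like polynomials `Im (F * conj G)` on the ray
`arg x = π / d`, `d` the largest step, by induction on the number of terms, and compares them with
the zeros in the sector `|arg x| ≤ π / d`; the first terms of the progressions are removed by
Rolle's theorem.
-/

namespace Pool.Agent.Results.MP_5180ba_lc.FewProgressions

open Polynomial

/-- For all `s` and `c` there is `K` such that, for all real `a_i` and real polynomials `f_i`
(`i < s`) with `F = ∑ a_i f_i ^ 2 ≠ 0`, the number of distinct real roots of `F` is: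
(1) at most `K * ∑ i, ∑ l, ln i l`, if the support of every `f_i` is covered by the `c`
progressions `{st i l + j * sp i l | j < ln i l}`;
(2) at most `K * (n + 1)`, if every `f_i` is a sum of `c` terms
`x ^ (σ i j) * ∏ l, p i j l (x ^ (d i j l))`, `c` factors each, `deg (p i j l) ≤ n`.
(3) A non-zero sum of `s` products `∏ l, p i l (x ^ (d i l))`, `c` factors each,
`deg (p i l) ≤ n`, has at most `K * (n + 1)` positive roots, counted with multiplicity. -/
theorem result (s c : ℕ) : ∃ K : ℕ,
    (∀ st sp ln : Fin s → Fin c → ℕ, (∀ i l, 1 ≤ sp i l) →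
      ∀ (a : Fin s → ℝ) (f : Fin s → ℝ[X]),
      (∀ i, ∀ e ∈ (f i).support, ∃ l, ∃ j < ln i l, e = st i l + j * sp i l) →
      (∑ i, a i • f i ^ 2) ≠ 0 →
      (∑ i, a i • f i ^ 2).roots.toFinset.card ≤ K * ∑ i, ∑ l, ln i l) ∧
    (∀ (n : ℕ) (σ : Fin s → Fin c → ℕ) (d : Fin s → Fin c → Fin c → ℕ)
      (p : Fin s → Fin c → Fin c → ℝ[X]), (∀ i j l, 1 ≤ d i j l) →
      (∀ i j l, (p i j l).natDegree ≤ n) → ∀ (a : Fin s → ℝ) (f : Fin s → ℝ[X]),
      (∀ i, f i = ∑ j, X ^ (σ i j) * ∏ l, (p i j l).comp (X ^ (d i j l))) →
      (∑ i, a i • f i ^ 2) ≠ 0 →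
      (∑ i, a i • f i ^ 2).roots.toFinset.card ≤ K * (n + 1)) ∧
    (∀ (n : ℕ) (d : Fin s → Fin c → ℕ) (p : Fin s → Fin c → ℝ[X]), (∀ i l, 1 ≤ d i l) →
      (∀ i l, (p i l).natDegree ≤ n) → (∑ i, ∏ l, (p i l).comp (X ^ (d i l))) ≠ 0 →
      Multiset.card ((∑ i, ∏ l, (p i l).comp (X ^ (d i l))).roots.filter (fun x => 0 < x)) ≤
        K * (n + 1)) := by
  classical
  obtain ⟨K, hK⟩ := SEC.squares_prod s c
  obtain ⟨K', hK'⟩ := SEC.mult_terms s c
  refine ⟨max K K', ?_, ?_, ?_⟩
  · intro st sp ln hsp a f hf hne
    set T : ℕ := ∑ i, ∑ l, ln i l with hT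
    have hle : ∀ i l, ln i l ≤ T := fun i l =>
      (Finset.single_le_sum (f := ln i) (fun _ _ => Nat.zero_le _) (Finset.mem_univ l)).trans
        (Finset.single_le_sum (f := fun i => ∑ l, ln i l) (fun _ _ => Nat.zero_le _)
          (Finset.mem_univ i))
    have hT1 : 1 ≤ T := by
      by_contra hcon
      apply hne
      refine Finset.sum_eq_zero fun i _ => ?_
      have : f i = 0 := by
        by_contra hfi
        obtain ⟨e, he⟩ := Finset.nonempty_iff_ne_empty.2 (support_eq_empty.not.2 hfi)
        obtain ⟨l, j, hj, -⟩ := hf i e he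
        have := hle i l
        omega
      rw [this]
      simp
    choose q hq1 hq2 using fun i => SEC.decompose (st i) (sp i) (ln i) (hsp i) (f i) (hf i)
    refine le_trans ?_ (Nat.mul_le_mul_right _ (le_max_left K K'))
    refine hK T hT1 st (fun i j _ => sp i j) (fun i j l => if l = j then q i j else 1)
      (fun i j _ => hsp i j) (fun i j l => ?_) a f (fun i => ?_) hne
    · split
      · exact (hq1 i j).trans (hle i j)
      · rw [natDegree_one]
        exact Nat.zero_le _
    · rw [hq2 i]
      refine Finset.sum_congr rfl fun j _ => ?_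
      congr 1
      rw [Finset.prod_eq_single j]
      · rw [if_pos rfl, expand_eq_comp_X_pow]
      · intro l _ hl
        rw [if_neg hl, one_comp]
      · intro h
        exact absurd (Finset.mem_univ j) h
  · intro n σ d p hd hp a f hf hne
    exact (hK (n + 1) (Nat.succ_pos n) σ d p hd (fun i j l => (hp i j l).trans (Nat.le_succ n))
      a f hf hne).trans (Nat.mul_le_mul_right _ (le_max_left K K'))
  · intro n d p hd hp hne
    refine le_trans ?_ ((hK' (n + 1) (Nat.succ_pos n) d p hd
      (fun i l => (hp i l).trans (Nat.le_succ n)) hne).trans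
      (Nat.mul_le_mul_right _ (le_max_right K K')))
    unfold SEC.cntP
    exact le_of_eq (by congr)

end Pool.Agent.Results.MP_5180ba_lc.FewProgressions
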