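import Pool.Agent.Lib_MP_5180ba_gd.Final

/-!
# MP_5180ba - real roots of sums of boundedly many squares: generic degenerations

Let `f_1, …, f_s` be arbitrary real polynomials with exponents in `A`, `c_1, …, c_s` real numbers and
`h ∈ ℝ ^ A` linearly independent over `ℚ` (almost every `h` is, `P5180.ae_li`).  If every monomial
`x ^ a` is multiplied by `ε ^ (h a)`, in all the `f_i`, then for small `ε > 0` the polynomial
`∑ c_i f_i ^ 2` is zero or has at most `8 s |A|` distinct real roots.

The proof: the matrix `M a b = ∑ c_i (f_i)_a (f_i)_b` has rank at most `s`.  The pairs `(a, b)` which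
are vertices of the lower convex hull of the points `(a + b, h a + h b)`, `M a b ≠ 0`, contain no
`a_0 < … < a_s`, `b_0 > … > b_s` (otherwise exactly one term of the minor of size `s + 1` would be
non-zero), so there are at most `s (2 |A| - 1)` of them.
-/

namespace Pool.Agent.Results.MP_5180ba_lc.GenericDegenerations

open Polynomial Filter Topology

/-- For all real polynomials `f_1, …, f_s` with exponents in the finite set `A`, all real
`c_1, …, c_s` and every `h : A → ℝ` which is linearly independent over `ℚ`: for all sufficiently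
small `ε > 0` the polynomial `∑ c_i (∑ a, (f_i)_a ε ^ (h a) x ^ a) ^ 2` is zero or has at most
`8 s |A|` distinct real roots. -/
theorem result (s : ℕ) (A : Finset ℕ) (f : Fin s → ℝ[X]) (_hA : ∀ i, (f i).support ⊆ A)
    (c : Fin s → ℝ) (h : A → ℝ) (hh : LinearIndependent ℚ h) : ∀ᶠ ε in 𝓝[>] (0 : ℝ),
      (∑ i, C (c i) * (∑ a : A, C ((f i).coeff a * ε ^ h a) * X ^ (a : ℕ)) ^ 2 : ℝ[X]) = 0 ∨
      {x : ℝ | (∑ i, C (c i) * (∑ a : A, C ((f i).coeff a * ε ^ h a) * X ^ (a : ℕ)) ^ 2 :
        ℝ[X]).eval x = 0}.encard ≤ ((8 * s * A.card : ℕ) : ℕ∞) := by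
  filter_upwards [P5180.real_roots A (fun i a => (f i).coeff a) c h hh] with ε hε
  rcases hε with hε | hε
  · exact Or.inl hε
  · by_cases h0 : P5180.Fe A (fun i a => (f i).coeff a) c h ε = 0
    · exact Or.inl h0
    · right
      have h1 : {x : ℝ | (P5180.Fe A (fun i a => (f i).coeff a) c h ε).eval x = 0} =
          ((P5180.Fe A (fun i a => (f i).coeff a) c h ε).roots.toFinset : Set ℝ) := by
        ext x
        simp [h0]
      have h2 : {x : ℝ | (P5180.Fe A (fun i a => (f i).coeff a) c h ε).eval x = 0}.encard ≤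
          ((8 * s * A.card : ℕ) : ℕ∞) := by
        rw [h1, Set.encard_coe_eq_coe_finsetCard]
        exact_mod_cast hε
      exact h2

end Pool.Agent.Results.MP_5180ba_lc.GenericDegenerations
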